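import Mathlib

namespace Pool.Agent.Results.MP_591151_lc.Exists

open Set symmDiff

/-- no non-trivial automorphism of `G` preserves the colouring `c` -/
def Dist {X I : Type} (G : SimpleGraph X) (c : X → I) : Prop :=
  ∀ φ : G ≃g G, (∀ x, c (φ x) = c x) → ∀ x, φ x = x

abbrev F := Finset ℕ

noncomputable def dec (j : ℕ) : Finset F := (Denumerable.ofNat (ℕ × Finset F) j).2
noncomputable def enu (j : ℕ) : F := (Denumerable.ofNat (ℕ × F) j).2

lemma often {α : Type} [Denumerable α] (a : α) (m : ℕ) :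
    ∃ j, m ≤ j ∧ (Denumerable.ofNat (ℕ × α) j).2 = a := by
  obtain ⟨_, ⟨k, rfl⟩, h⟩ := (infinite_range_of_injective (f := fun k : ℕ => Encodable.encode (k, a))
    fun k k' e => by simpa using Encodable.encode_injective e).exists_gt m
  exact ⟨_, h.le, by rw [Denumerable.ofNat_encode]⟩

def T (n : ℕ) (g : F) : Prop :=
  ∃ j, (n = 2 * j + 1 ∧ g ∈ dec j) ∨ (n = 2 * j + 2 ∧ g = {2 * j}) ∨
    (n = 2 * j ∧ g = enu j ∧ ∀ i, g ≠ {2 * i})

def S (g : F) : Prop := ∃ n ∈ g, (∀ k ∈ g, k ≤ n) ∧ T n (g.erase n)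

lemma S_iff {n : ℕ} {g : F} (h : ∀ k ∈ g, k < n) : S ({n} ∆ g) ↔ T n g := by
  have hn : n ∉ g := fun e => (h n e).false
  have e : {n} ∆ g = insert n g := by
    ext k; by_cases k = n <;> simp_all [Finset.mem_symmDiff]
  rw [e]
  refine ⟨fun ⟨m, hm, h1, h2⟩ => ?_, fun H => ⟨n, by simp, fun k hk => ?_, by
    rwa [Finset.erase_insert hn]⟩⟩
  · obtain rfl : m = n := (Finset.mem_insert.1 hm).resolve_right fun e =>
      (h m e).not_ge (h1 n (by simp))
    rwa [Finset.erase_insert hn] at h2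
  · exact (Finset.mem_insert.1 hk).elim le_of_eq fun e => (h k e).le

lemma bdd (A : Finset F) : ∃ m, ∀ a ∈ A, ∀ k ∈ a, k < m :=
  ⟨(A.sup id).sup id + 1, fun _ ha _ hk => Nat.lt_succ_of_le
    (Finset.le_sup (f := id) (Finset.le_sup (f := id) ha hk))⟩

/-- extension property -/
lemma extend (D A : Finset F) (v : F) (m : ℕ) :
    ∃ z, z ∉ D ∧ (∀ k < m, k ∈ z ↔ k ∈ v) ∧ ∀ a ∈ D, S (z ∆ a) ↔ a ∈ A := by
  obtain ⟨b, hb⟩ := bdd (insert v D)
  obtain ⟨j, hj, e⟩ := often (A.image (v ∆ ·)) (max m b)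
  rw [max_le_iff] at hj
  have hv : 2 * j + 1 ∉ v := fun h => by have := hb v (by simp) _ h; omega
  refine ⟨{2 * j + 1} ∆ v, fun h => ?_, fun k hk => ?_, fun a ha => ?_⟩
  · have := hb _ (Finset.mem_insert_of_mem h) (2 * j + 1) (by simp [Finset.mem_symmDiff, hv])
    omega
  · simp [Finset.mem_symmDiff, show k ≠ 2 * j + 1 by omega]
  · rw [symmDiff_assoc, S_iff fun k hk => by
      rcases Finset.mem_symmDiff.1 hk with h | h
      · have := hb v (by simp) k h.1; omega
      · have := hb a (by simp [ha]) k h.1; omega]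
    refine ⟨fun ⟨i, h⟩ => ?_, fun h => ⟨j, .inl ⟨rfl, by rw [dec, e]; exact Finset.mem_image_of_mem _ h⟩⟩⟩
    obtain ⟨h1, h2⟩ := h.resolve_right (by omega)
    obtain rfl : j = i := by omega
    rw [dec, e] at h2
    simpa using h2

/-- a non-trivial involution preserving a locally constant colouring -/
lemma invol {I : Type} (γ : F → I) (h : ∀ v, ∃ m, ∀ z, (∀ k < m, k ∈ z ↔ k ∈ v) → γ z = γ v) :
    ∃ φ : F → F, (∀ a, φ (φ a) = a) ∧ (∀ a, γ (φ a) = γ a) ∧
      (∀ a b, S (φ a ∆ φ b) ↔ S (a ∆ b)) ∧ φ ∅ ≠ ∅ := by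
  let P : Finset F × (F → F) → Prop := fun s => (∀ a ∈ s.1, s.2 a ∈ s.1 ∧ s.2 (s.2 a) = a ∧
    s.2 a ≠ a ∧ γ (s.2 a) = γ a) ∧ ∀ a ∈ s.1, ∀ b ∈ s.1, S (s.2 a ∆ s.2 b) ↔ S (a ∆ b)
  have step (s : {s // P s}) (v : F) : ∃ t : {s // P s}, v ∈ t.1.1 ∧
      ∀ a ∈ s.1.1, a ∈ t.1.1 ∧ t.1.2 a = s.1.2 a := by
    classical
    obtain ⟨⟨D, f⟩, h1, h2⟩ := s
    by_cases hv : v ∈ D
    · exact ⟨⟨(D, f), h1, h2⟩, hv, fun a ha => ⟨ha, rfl⟩⟩
    obtain ⟨m, hm⟩ := h v
    obtain ⟨z, hz, z1, z2⟩ := extend (insert v D) (D.filter fun a => S (v ∆ f a)) v m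
    simp only [Finset.mem_insert, not_or, Finset.mem_filter] at hz z2 h1 h2
    let f' := fun a => if a = v then z else if a = z then v else f a
    have e0 (a) (ha : a ∈ D) : f' a = f a := by
      simp only [f', if_neg (ne_of_mem_of_not_mem ha hv), if_neg (ne_of_mem_of_not_mem ha hz.2)]
    have e1 : f' v = z := if_pos rfl
    have e2 : f' z = v := by simp [f', hz.1]
    have z3 (a) (ha : a ∈ D) : S (z ∆ a) ↔ S (v ∆ f a) := by simp [z2 a (.inr ha), ha]
    have z4 (a) (ha : a ∈ D) : S (z ∆ f a) ↔ S (v ∆ a) := by rw [z3 _ (h1 a ha).1, (h1 a ha).2.1]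
    refine ⟨⟨(insert v (insert z D), f'), ?_, ?_⟩, by simp, fun a ha => ⟨by simp [ha], e0 a ha⟩⟩
    · simp only [Finset.mem_insert]
      rintro a (rfl | rfl | ha)
      · simp [e1, e2, hz.1, hm z z1]
      · simp [e1, e2, Ne.symm hz.1, hm _ z1]
      · simp [e0 a ha, e0 _ (h1 a ha).1, h1 a ha]
    · simp only [Finset.mem_insert]
      rintro a (rfl | rfl | ha) b (rfl | rfl | hb)
      · simp
      · rw [e1, e2, symmDiff_comm]
      · rw [e1, e0 b hb, z4 b hb]
      · rw [e1, e2, symmDiff_comm]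
      · simp
      · rw [e2, e0 b hb, z3 b hb]
      · rw [e1, e0 a ha, symmDiff_comm, z4 a ha, symmDiff_comm]
      · rw [e2, e0 a ha, symmDiff_comm, ← z3 a ha, symmDiff_comm]
      · rw [e0 a ha, e0 b hb, h2 a ha b hb]
  choose nx h1 h2 using step
  obtain ⟨en, hen⟩ := exists_surjective_nat F
  choose r hr using hen
  let s : ℕ → {s // P s} := fun n => n.rec ⟨(∅, id), by simp [P]⟩ fun n s => nx s (en n)
  have mono {n n'} (e : n ≤ n') : ∀ a ∈ (s n).1.1, a ∈ (s n').1.1 ∧ (s n').1.2 a = (s n).1.2 a := by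
    induction e with
    | refl => exact fun a ha => ⟨ha, rfl⟩
    | step _ ih =>
      exact fun a ha => ⟨(h2 _ _ a (ih a ha).1).1, (h2 _ _ a (ih a ha).1).2.trans (ih a ha).2⟩
  have mem (a : F) : a ∈ (s (r a + 1)).1.1 := by
    have := h1 (s (r a)) (en (r a))
    rw [hr] at this
    simpa only [s, hr] using this
  let φ := fun a => (s (r a + 1)).1.2 a
  have key (a b : F) : ∃ n, a ∈ (s n).1.1 ∧ b ∈ (s n).1.1 ∧ φ a = (s n).1.2 a ∧ φ b = (s n).1.2 b :=
    ⟨max (r a + 1) (r b + 1), (mono (le_max_left _ _) a (mem a)).1,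
      (mono (le_max_right _ _) b (mem b)).1,
      (mono (le_max_left (r a + 1) (r b + 1)) a (mem a)).2.symm,
      (mono (le_max_right (r a + 1) (r b + 1)) b (mem b)).2.symm⟩
  refine ⟨φ, fun a => ?_, fun a => ((s (r a + 1)).2.1 a (mem a)).2.2.2, fun a b => ?_,
    ((s (r ∅ + 1)).2.1 ∅ (mem ∅)).2.2.1⟩
  · obtain ⟨n, ha, -, e, e'⟩ := key a (φ a)
    rw [e', e, ((s n).2.1 a ha).2.1]
  · obtain ⟨n, ha, hb, e, e'⟩ := key a b
    rw [e, e', (s n).2.2 a ha b hb]

abbrev X := ℕ → Bool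

def act (g : F) (x : X) : X := fun k => xor (x k) (decide (k ∈ g))

lemma act_act (g h : F) (x : X) : act g (act h x) = act (g ∆ h) x := by
  funext k
  by_cases k ∈ g <;> by_cases k ∈ h <;> simp_all [act, Finset.mem_symmDiff]

@[simp] lemma act_bot (x : X) : act ∅ x = x := by funext k; simp [act]

lemma act_inj {g h : F} {x : X} (e : act g x = act h x) : g = h := by
  ext k
  simpa [act] using congrFun e k

lemma act_cont (g : F) : Continuous (act g) :=
  continuous_pi fun k => (continuous_of_discreteTopology (f := fun b => xor b (decide (k ∈ g)))).comp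
    (continuous_apply k)

def G : SimpleGraph X where
  Adj x y := ∃ g, S g ∧ y = act g x
  symm := ⟨by rintro x _ ⟨g, h, rfl⟩; exact ⟨g, h, by simp [act_act]⟩⟩
  loopless := ⟨by
    rintro x ⟨g, ⟨n, hn, -⟩, e⟩
    rw [← act_inj ((act_bot x).trans e)] at hn
    simp at hn⟩

lemma adj_act {g h : F} {x : X} : G.Adj (act g x) (act h x) ↔ S (g ∆ h) := by
  refine ⟨fun ⟨k, hk, e⟩ => ?_, fun H => ⟨_, H, by rw [act_act, symmDiff_symmDiff_self']⟩⟩
  rw [act_act] at e
  rwa [act_inj e, symmDiff_comm k, symmDiff_symmDiff_cancel_left]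

lemma not_borel {I : Type} [MeasurableSpace I] [MeasurableSingletonClass I] [Countable I]
    (c : X → I) (hc : Measurable c) : ¬ Dist G c := by
  classical
  intro H
  choose U hU e using fun i : I =>
    (hc (measurableSet_singleton i)).baireMeasurableSet.residualEq_isOpen
  have : ∀ᶠ x in residual X, ∀ g i, c (act g x) = i ↔ act g x ∈ U i := by
    refine eventually_countable_forall.2 fun g => eventually_countable_forall.2 fun i => ?_
    let h : X ≃ₜ X := ⟨⟨act g, act g, fun x => by simp [act_act], fun x => by simp [act_act]⟩,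
      act_cont g, act_cont g⟩
    exact (tendsto_residual_of_isOpenMap h.continuous h.isOpenMap).eventually (e i).mem_iff
  obtain ⟨x, hx⟩ := (dense_of_mem_residual this).nonempty
  obtain ⟨φ, h1, h2, h3, h4⟩ := invol (fun g => c (act g x)) fun v => by
    obtain ⟨J, u, hu, hJ⟩ := isOpen_pi_iff.1 (hU _) _ ((hx v _).1 rfl)
    refine ⟨J.sup id + 1, fun z hz => (hx z _).2 (hJ fun k hk => ?_)⟩
    have := hz k (Nat.lt_succ_of_le (Finset.le_sup (f := id) hk))
    simpa [act, this] using (hu k hk).2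
  let Φ : X → X := fun y => if h : ∃ g, y = act g x then act (φ h.choose) x else y
  have e1 (g) : Φ (act g x) = act (φ g) x := by
    have h : ∃ g', act g x = act g' x := ⟨g, rfl⟩
    simp only [Φ, dif_pos h, ← act_inj h.choose_spec]
  have e2 (y) : (∃ g, y = act g x) ∨ (Φ y = y ∧ ∀ g, ¬ G.Adj y (act g x)) := by
    refine (em _).imp_right fun h => ⟨dif_neg h, fun g a => ?_⟩
    obtain ⟨k, -, e⟩ := a.symm
    exact h ⟨_, e.trans (act_act ..)⟩
  have inv (y) : Φ (Φ y) = y := by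
    rcases e2 y with ⟨g, rfl⟩ | h
    · rw [e1, e1, h1]
    · rw [h.1, h.1]
  refine h4 (act_inj ((e1 _).symm.trans (H ⟨⟨Φ, Φ, inv, inv⟩, fun {y z} => ?_⟩ (fun y => ?_) _)))
  · change G.Adj (Φ y) (Φ z) ↔ _
    rcases e2 y with ⟨g, rfl⟩ | h <;> rcases e2 z with ⟨g', rfl⟩ | h'
    · rw [e1, e1, adj_act, adj_act, h3]
    · rw [e1, h'.1]
      exact iff_of_false (fun a => h'.2 _ a.symm) fun a => h'.2 _ a.symm
    · rw [e1, h.1]
      exact iff_of_false (h.2 _) (h.2 _)
    · rw [h.1, h'.1]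
  · change c (Φ y) = _
    rcases e2 y with ⟨g, rfl⟩ | h
    · rw [e1, h2]
    · rw [h.1]

def orb : Setoid X :=
  ⟨fun x y => ∃ g, y = act g x, fun x => ⟨∅, by simp⟩, by
    rintro x _ ⟨g, rfl⟩; exact ⟨g, by simp [act_act]⟩, by
    rintro x _ _ ⟨g, rfl⟩ ⟨h, rfl⟩; exact ⟨_, act_act ..⟩⟩

lemma ray {i j : ℕ} (h : S ({2 * i} ∆ {2 * j})) : i = j + 1 ∨ j = i + 1 := by
  have key {i j : ℕ} (h : S ({2 * i} ∆ {2 * j})) (l : j < i) : i = j + 1 := by
    rw [S_iff (by simpa using l)] at h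
    obtain ⟨k, h | h | h⟩ := h
    · omega
    · have := Finset.singleton_injective h.2; omega
    · exact absurd rfl (h.2.2 j)
  rcases lt_trichotomy j i with l | rfl | l
  · exact .inl (key h l)
  · simp [S] at h
  · exact .inr (key (by rwa [symmDiff_comm]) l)

lemma fin_dist : ∃ c : X → Option (Bool × ZMod 3 × Bool), Dist G c := by
  classical
  let base : X → X := fun x => (Quotient.mk orb x).out
  have hb (g x) : base (act g x) = base x :=
    congrArg Quotient.out (Quotient.sound (s := orb) ⟨g, rfl⟩).symm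
  choose d hd using fun x => show ∃ g, x = act g (base x) from Quotient.mk_out (s := orb) x
  have bb (x) : base (base x) = base x := by rw [← hb (d x), ← hd]
  have dd (g x) : d (act g (base x)) = g := by
    have := hd (act g (base x))
    rw [hb, bb] at this
    exact (act_inj this).symm
  let c : X → Option (Bool × ZMod 3 × Bool) := fun x => if ∃ j, d x = {2 * j} then
    some (decide ((d x).sup id / 2 = 0), ((d x).sup id / 2 : ℕ), base x ((d x).sup id / 2)) else none
  have c1 (x) (j : ℕ) : c (act {2 * j} (base x)) = some (decide (j = 0), (j : ZMod 3), base x j) := by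
    simp [c, dd, hb, bb]
    omega
  have c2 (y) (h : c y ≠ none) : ∃ j, y = act {2 * j} (base y) := by
    obtain ⟨j, hj⟩ : ∃ j, d y = {2 * j} := by_contra fun k => h (if_neg k)
    exact ⟨j, hj ▸ hd y⟩
  refine ⟨c, fun φ hφ x => ?_⟩
  have c3 (j : ℕ) : ∃ i : ℕ, φ (act {2 * j} (base x)) = act {2 * i} (base (φ (act {2 * j} (base x)))) ∧
      (i = 0 ↔ j = 0) ∧ (i : ZMod 3) = j ∧ base (φ (act {2 * j} (base x))) i = base x j := by
    obtain ⟨i, hi⟩ := c2 (φ (act {2 * j} (base x))) (by rw [hφ, c1]; simp)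
    have := hφ (act {2 * j} (base x))
    rw [hi, c1, c1] at this
    exact ⟨i, hi, by simpa using this⟩
  obtain ⟨y, hy⟩ : ∃ y, ∀ j, φ (act {2 * j} (base x)) = act {2 * j} (base y) := by
    refine ⟨φ (act {2 * 0} (base x)), fun j => ?_⟩
    induction j with
    | zero =>
      obtain ⟨i, h1, h2, -⟩ := c3 0
      rwa [h2.2 rfl] at h1
    | succ j ih =>
      obtain ⟨i, h1, -, h2, -⟩ := c3 (j + 1)
      have a : G.Adj (act {2 * (j + 1)} (base x)) (act {2 * j} (base x)) := by
        rw [adj_act, S_iff (by simp)]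
        exact ⟨j, .inr (.inl ⟨rfl, rfl⟩)⟩
      rw [← φ.map_adj_iff, ih] at a
      obtain ⟨g, -, e⟩ := a.symm
      have e' := congrArg base e
      rw [hb, hb, bb] at e'
      rw [e'] at h1
      rw [h1, adj_act] at a
      rcases ray a with rfl | rfl
      · exact h1
      · push_cast at h2
        exact absurd (by linear_combination -h2 : (2 : ZMod 3) = 0) (by decide)
  have eb : base y = base x := funext fun j => by
    obtain ⟨i, h1, -, -, h2⟩ := c3 j
    rw [hy, hb, bb] at h1 h2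
    have := Finset.singleton_injective (act_inj h1)
    rwa [show i = j by omega] at h2
  rw [eb] at hy
  by_cases k : ∃ j, d x = {2 * j}
  · obtain ⟨j, hj⟩ := k
    rw [hd x, hj, hy]
  · obtain ⟨m, hm⟩ := bdd {d x, d (φ x)}
    obtain ⟨j, hj, e⟩ := often (d x) m
    have a : G.Adj (act {2 * j} (base x)) (act (d x) (base x)) := by
      rw [adj_act, S_iff fun k hk => by have := hm (d x) (by simp) k hk; omega]
      exact ⟨j, .inr (.inr ⟨rfl, e.symm, fun i h => k ⟨i, h⟩⟩)⟩
    rw [← φ.map_adj_iff, hy, ← hd] at a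
    have e' : base (φ x) = base x := by
      obtain ⟨g, -, e⟩ := a
      rw [e, hb, hb, bb]
    have k' : c (φ x) = none := (hφ x).trans (if_neg k)
    rw [hd (φ x), e', adj_act,
      S_iff fun k hk => by have := hm (d (φ x)) (by simp) k hk; omega] at a
    obtain ⟨i, h | h | h⟩ := a
    · omega
    · simp [c, h.2] at k'
    · obtain rfl : j = i := by omega
      rw [hd (φ x), e', h.2.1, enu, e, ← hd]

theorem result : ∃ (X : Type) (_ : MeasurableSpace X) (_ : StandardBorelSpace X) (G : SimpleGraph X),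
    MeasurableSet {p : X × X | G.Adj p.1 p.2} ∧ (∃ (n : ℕ) (c : X → Fin n), Dist G c) ∧
    ∀ (I : Type) [MeasurableSpace I] [StandardBorelSpace I] (c : X → I), Measurable c → Dist G c →
      Cardinal.mk I = Cardinal.continuum := by
  refine ⟨X, inferInstance, inferInstance, G, ?_, ?_, fun I _ _ c hc h => ?_⟩
  · have : {p : X × X | G.Adj p.1 p.2} = ⋃ g ∈ {g | S g}, {p | p.2 = act g p.1} := by
      ext; simp [G]
    rw [this]
    exact .biUnion (to_countable _) fun g _ =>
      (isClosed_eq continuous_snd ((act_cont g).comp continuous_fst)).measurableSet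
  · obtain ⟨c, hc⟩ := fin_dist
    exact ⟨_, Fintype.equivFin _ ∘ c, fun φ h => hc φ fun x => (Fintype.equivFin _).injective (h x)⟩
  · have : ¬ Countable I := fun _ => not_borel c hc h
    rw [← Cardinal.mk_real]
    exact Cardinal.mk_congr (PolishSpace.measurableEquivOfNotCountable this
      (not_countable_iff.2 inferInstance)).toEquiv

end Pool.Agent.Results.MP_591151_lc.Exists
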